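import Mathlib
import Pool.Agent.R980.Indep

/-!
# MP_78cba5_pr : linear-size reconstruction from random distances in every dimension

Statements (as `Prop`s) of the independent steps.
`bex q f` is the expectation of `f` over `E → Bool` with independent Bernoulli(q) entries
(`Pool.Agent.R980.Gnp`), `gnp n p A` the probability of `A` in `G(n,p)`.
-/

set_option autoImplicit false

namespace N943.RC

open Finset Pool.Agent.R980
open scoped Classical

abbrev Pt (d : ℕ) : Type := EuclideanSpace ℝ (Fin d)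

/-- the realization `x` keeps the length of the pair `e` -/
def Pres {n d : ℕ} (v x : Fin n → Pt d) (e : Sym2 (Fin n)) : Prop :=
  ∀ a b, e = s(a, b) → dist (x a) (x b) = dist (v a) (v b)

/-- the realization `x` is isometric to `v` on `U` -/
def IsoOn {n d : ℕ} (v x : Fin n → Pt d) (U : Finset (Fin n)) : Prop :=
  ∀ a ∈ U, ∀ b ∈ U, dist (x a) (x b) = dist (v a) (v b)

/-- the realization `x` has the revealed distances -/
def Consistent {n d : ℕ} (v : Fin n → Pt d) (G : SimpleGraph (Fin n)) (x : Fin n → Pt d) : Prop :=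
  ∀ a b, G.Adj a b → dist (x a) (x b) = dist (v a) (v b)

/-- `U` is reconstructible from the distances of the pairs of `G` -/
def Reconstructible {n d : ℕ} (v : Fin n → Pt d) (G : SimpleGraph (Fin n)) (U : Finset (Fin n)) :
    Prop :=
  ∀ x : Fin n → Pt d, Consistent v G x → IsoOn v x U

/-- labelled pairs: the sample space of `R` independent copies of `G(n,q)` -/
abbrev LE (n R : ℕ) : Type := Edge n × Fin R

/-- union of the `R` copies -/
noncomputable def uni {n R : ℕ} (x : LE n R → Bool) : SimpleGraph (Fin n) :=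
  ofBool (fun e => decide (∃ i, x (e, i) = true))

/-- `u` is a neighbour of `a` in the `i`-th copy -/
def Lab {n R : ℕ} (x : LE n R → Bool) (i : Fin R) (a u : Fin n) : Prop :=
  ∃ h : ¬ (s(a, u) : Sym2 (Fin n)).IsDiag, x (⟨s(a, u), h⟩, i) = true

/-- number of labelled edges inside `S` -/
noncomputable def lcount {n R : ℕ} (x : LE n R → Bool) (S : Finset (Fin n)) : ℕ :=
  (univ.filter fun e : LE n R => x e = true ∧ ∀ a ∈ e.1.1, a ∈ S).card

/-- labelled pairs whose length is not kept by `x` -/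
noncomputable def NPL {n d : ℕ} (R : ℕ) (v x : Fin n → Pt d) : Finset (LE n R) :=
  univ.filter fun e : LE n R => ¬ Pres v x e.1.1

/-- the `i`-th neighbourhood of `a` does not span the point `v a` -/
def OutAt {n d R : ℕ} (v : Fin n → Pt d) (x : LE n R → Bool) (a : Fin n) (i : Fin R) : Prop :=
  v a ∉ affineSpan ℝ (v '' {u | Lab x i a u})

/-- the vertices which are not spanned by their neighbourhoods for more than half of the labels -/
noncomputable def BadSet {n d R : ℕ} (v : Fin n → Pt d) (x : LE n R → Bool) : Finset (Fin n) :=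
  univ.filter fun a => R < 2 * (univ.filter fun i : Fin R => OutAt v x a i).card

/-- `Phi v q` : expected number of points not in the affine span of a random set of other points -/
noncomputable def Phi {n d : ℕ} (v : Fin n → Pt d) (q : ℝ) : ℝ :=
  ∑ a : Fin n, bex q (fun z : Fin n → Bool =>
    if v a ∉ affineSpan ℝ (v '' {u | u ≠ a ∧ z u = true}) then 1 else 0)

/-! ### Deterministic steps -/

/-- **D1** zero patterns (Ronyai-Babai-Ganapathy). -/
def ZeroPat : Prop :=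
  ∀ (σ ι : Type) [Fintype σ] [Fintype ι] (D : ℕ) (f : ι → MvPolynomial σ ℝ),
    (∀ i, (f i).totalDegree ≤ D) →
    (Set.range fun z : σ → ℝ => (univ.filter fun i : ι => MvPolynomial.eval z (f i) = 0)).ncard ≤
      (Fintype.card ι * D + Fintype.card σ).choose (Fintype.card σ)

/-- **D1'** traces of the sets `NPL` on a set `X` of labelled pairs. -/
def Traces : Prop :=
  ∀ (n d R : ℕ) (v : Fin n → Pt d) (X : Finset (LE n R)),
    (Set.range fun x : Fin n → Pt d => NPL R v x ∩ X).ncard ≤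
      (2 * X.card + d * n).choose (d * n)

/-- **D2** extension of the set on which the realization is isometric. -/
def Extend : Prop :=
  ∀ (n d : ℕ) (v x : Fin n → Pt d) (U : Finset (Fin n)) (a : Fin n) (N : Set (Fin n)),
    IsoOn v x U → (∀ u ∈ N, u ∈ U ∧ dist (x a) (x u) = dist (v a) (v u)) →
    v a ∈ affineSpan ℝ (v '' N) → IsoOn v x (insert a U)

/-- **D3** if almost all pairs are kept then the realization is isometric on almost all points. -/
def Struct : Prop :=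
  ∀ (d : ℕ) (ε' : ℝ), 0 < ε' → ∃ ε : ℝ, 0 < ε ∧ ∀ (n : ℕ) (v x : Fin n → Pt d),
    ((univ.filter fun e : Edge n => ¬ Pres v x e.1).card : ℝ) ≤ ε * (n : ℝ) ^ 2 →
    ∃ U : Finset (Fin n), IsoOn v x U ∧ (n : ℝ) - U.card ≤ ε' * n

/-- **D4** the core: a common set avoiding all self-supporting small sets `W`. -/
def Core : Prop :=
  ∀ (n R s : ℕ) (x : LE n R → Bool) (Bad : Finset (Fin n)), 0 < R → 2 * Bad.card ≤ s →
    (∀ S : Finset (Fin n), S.Nonempty → S.card ≤ s → 8 * lcount x S < R * S.card) →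
    ∃ K : Finset (Fin n), n ≤ K.card + s ∧ ∀ W : Finset (Fin n), W.card ≤ s →
      (∀ a ∈ W, a ∉ Bad → R ≤ 2 * (univ.filter fun i : Fin R => ∃ u ∈ W, Lab x i a u).card) →
      Disjoint W K

/-! ### Probabilistic steps -/

/-- **P1** the epsilon-net theorem for Bernoulli samples (double sampling). -/
def Net : Prop :=
  ∀ (E : Type) [Fintype E] (F : Set (Finset E)) (q θ : ℝ) (m P : ℕ),
    0 < q → q ≤ 1 → 0 < Fintype.card E → 8 ≤ q * θ → 4 * q * Fintype.card E ≤ m →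
    (∀ X : Finset E, X.card ≤ m → ((fun Z => Z ∩ X) '' F).ncard ≤ P) →
    bex q (fun x : E → Bool => if ∃ Z ∈ F, θ ≤ (Z.card : ℝ) ∧ ∀ e ∈ Z, x e = false then 1 else 0) ≤
      4 / (q * Fintype.card E) + 2 * P * (2 : ℝ) ^ (-(q * θ / 2))

/-- **P2** small sets span few labelled edges. -/
def Sparse : Prop :=
  ∀ (n ρ : ℕ) (B : ℝ), 0 < n → 2 ≤ ρ → 0 < B → B ≤ n → 128 * B ≤ (2 : ℝ) ^ ρ →
    bex (B / n) (fun x : LE n (8 * ρ) → Bool =>
      if ∃ S : Finset (Fin n), S.Nonempty ∧ (S.card : ℝ) ≤ n / (24 * B) ∧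
        8 * ρ * S.card ≤ 8 * lcount x S then 1 else 0) ≤ 44 * B / n

/-- **P3** concentration of the number of bad vertices. -/
def BadConc : Prop :=
  ∀ (n d R : ℕ) (v : Fin n → Pt d) (q δ : ℝ), 0 < n → 0 < R → 0 ≤ q → q ≤ 1 → 0 < δ →
    bex q (fun x : LE n R → Bool =>
      if 2 * Phi v q + δ * n ≤ ((BadSet v x).card : ℝ) then 1 else 0) ≤
      (1 + 4 * R * q * n) / (δ ^ 2 * n)

/-- **P4** choice of the density. -/
def Scale : Prop :=
  ∀ (n d J : ℕ) (v : Fin n → Pt d) (q : ℝ), 0 < q → 2 ^ J * q ≤ 1 → 1 ≤ J →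
    ∃ j : ℕ, 1 ≤ j ∧ j ≤ J ∧ (2 ^ j * q) * Phi v (2 ^ j * q) ≤ 2 * (d + 1) / J

/-- **P5** the lower side. -/
def Lower : Prop :=
  ∀ (d : ℕ), 1 ≤ d → ∀ ε : ℝ, 0 < ε → ∀ η : ℝ, 0 < η → ∃ N : ℕ, ∀ n ≥ N, ∀ p : ℝ, 0 ≤ p →
    p ≤ 1 / (2 * n) → ∀ v : Fin n → Pt d,
    1 - η ≤ gnp n p (fun G => ∀ U : Finset (Fin n), Reconstructible v G U → (U.card : ℝ) ≤ ε * n)

/-- **P6a** the union of the copies is a binomial random graph. -/
def UnionLaw : Prop :=
  ∀ (n R : ℕ) (q : ℝ) (A : SimpleGraph (Fin n) → Prop),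
    bex q (fun x : LE n R → Bool => if A (uni x) then 1 else 0) = gnp n (1 - (1 - q) ^ R) A

/-- **P6b** monotonicity in `p`. -/
def MonoP : Prop :=
  ∀ (n : ℕ) (p p' : ℝ) (A : SimpleGraph (Fin n) → Prop), 0 ≤ p → p ≤ p' → p' ≤ 1 →
    (∀ G G' : SimpleGraph (Fin n), G ≤ G' → A G → A G') → gnp n p A ≤ gnp n p' A

/-- **N1** numerical estimate for the net. -/
def NumNet : Prop :=
  ∀ (d : ℕ) (B ε : ℝ), 1 ≤ d → 0 < B → 0 < ε → ∃ ρ₀ : ℕ, ∀ ρ : ℕ, ρ₀ ≤ ρ → ∀ n : ℕ,
    (((2 * (⌈16 * B * ρ⌉₊ * n) + d * n).choose (d * n) : ℕ) : ℝ) *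
      (2 : ℝ) ^ (-(ε * (8 * ρ) * B * n / 2)) ≤ (1 / 2 : ℝ) ^ n

/-! ### Target -/

/-- the target: `1/n` is a weak threshold for a linear-size reconstructible set, in every
dimension (and any fraction `δ < 1` is reached at `C/n`). -/
def Target : Prop :=
  ∀ d : ℕ, 1 ≤ d →
    (∀ ε : ℝ, 0 < ε → ∀ η : ℝ, 0 < η → ∃ N : ℕ, ∀ n ≥ N, ∀ p : ℝ, 0 ≤ p → p ≤ 1 / (2 * n) →
      ∀ v : Fin n → Pt d,
      1 - η ≤ gnp n p
        (fun G => ∀ U : Finset (Fin n), Reconstructible v G U → (U.card : ℝ) ≤ ε * n)) ∧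
    (∀ δ : ℝ, δ < 1 → ∃ C : ℝ, 0 < C ∧ ∀ η : ℝ, 0 < η → ∃ N : ℕ, ∀ n ≥ N, ∀ p : ℝ, C / n ≤ p →
      p ≤ 1 → ∀ v : Fin n → Pt d,
      1 - η ≤ gnp n p
        (fun G => ∃ U : Finset (Fin n), Reconstructible v G U ∧ δ * n ≤ (U.card : ℝ)))

end N943.RC
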