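import Mathlib
import Pool.Agent.N943.RC.Stm

/-!
# MP_78cba5_pr : assembly of the steps
-/

set_option autoImplicit false

namespace N943.RC

open Finset Pool.Agent.R980
open scoped Classical

theorem uni_adj {n R : ℕ} (x : LE n R → Bool) (i : Fin R) (a u : Fin n) (h : Lab x i a u) :
    (uni x).Adj a u := by
  obtain ⟨h1, h2⟩ := h
  refine ⟨h1, ?_⟩
  simp only [decide_eq_true_eq]
  exact ⟨i, h2⟩

/-- a good set of vertices is reconstructible -/
theorem recon_of_good {n d R s : ℕ} (hE : Extend) (v : Fin n → Pt d) (x : LE n R → Bool)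
    (K : Finset (Fin n))
    (hK : ∀ W : Finset (Fin n), W.card ≤ s → (∀ a ∈ W, a ∉ BadSet v x →
      R ≤ 2 * (univ.filter fun i : Fin R => ∃ u ∈ W, Lab x i a u).card) → Disjoint W K)
    (hU : ∀ y : Fin n → Pt d, Consistent v (uni x) y → ∃ U, IsoOn v y U ∧ n ≤ U.card + s) :
    Reconstructible v (uni x) K := by
  intro y hy
  obtain ⟨U0, hU0, hU0c⟩ := hU y hy
  obtain ⟨U, hUm, hUmax⟩ := Finset.exists_max_image
    ((univ : Finset (Finset (Fin n))).filter fun U => IsoOn v y U) (fun U => U.card)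
    ⟨U0, mem_filter.2 ⟨mem_univ _, hU0⟩⟩
  have hUi : IsoOn v y U := (mem_filter.1 hUm).2
  have hUc : U0.card ≤ U.card := hUmax U0 (mem_filter.2 ⟨mem_univ _, hU0⟩)
  have hW : Disjoint Uᶜ K := by
    apply hK
    · rw [card_compl, Fintype.card_fin]; omega
    · intro a ha hab
      have haU : a ∉ U := by simpa using ha
      have hbad : 2 * (univ.filter fun i : Fin R => OutAt v x a i).card ≤ R := by
        unfold BadSet at hab
        simp only [mem_filter, mem_univ, true_and, not_lt] at hab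
        exact hab
      have hsum : (univ.filter fun i : Fin R => OutAt v x a i).card +
          (univ.filter fun i : Fin R => ¬ OutAt v x a i).card = R := by
        rw [Finset.card_filter_add_card_filter_not, card_univ, Fintype.card_fin]
      have hle : (univ.filter fun i : Fin R => ¬ OutAt v x a i).card ≤
          (univ.filter fun i : Fin R => ∃ u ∈ Uᶜ, Lab x i a u).card := by
        apply card_le_card
        intro i hi
        rw [mem_filter] at hi ⊢
        refine ⟨mem_univ _, ?_⟩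
        by_contra hno
        push Not at hno
        have hspan : v a ∈ affineSpan ℝ (v '' {u | Lab x i a u}) := by
          have := hi.2
          unfold OutAt at this
          simpa using this
        have hN : ∀ u ∈ {u | Lab x i a u}, u ∈ U ∧ dist (y a) (y u) = dist (v a) (v u) := by
          intro u hu
          refine ⟨?_, hy a u (uni_adj x i a u hu)⟩
          by_contra huU
          exact hno u (by simpa using huU) hu
        have hins := hE n d v y U a _ hUi hN hspan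
        have := hUmax (insert a U) (mem_filter.2 ⟨mem_univ _, hins⟩)
        simp only [card_insert_of_notMem haU] at this
        omega
      omega
  intro a ha b hb
  have h1 : ∀ c ∈ K, c ∈ U := by
    intro c hc
    by_contra hcU
    exact Finset.disjoint_left.1 hW (by simpa using hcU) hc
  exact hUi a (h1 a ha) b (h1 b hb)

/-- consistent realizations keep all labelled edges -/
theorem npl_avoid {n d R : ℕ} (v y : Fin n → Pt d) (x : LE n R → Bool)
    (hy : Consistent v (uni x) y) : ∀ e ∈ NPL R v y, x e = false := by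
  intro e he
  by_contra hx
  have hx' : x e = true := by simpa using hx
  unfold NPL at he
  simp only [mem_filter, mem_univ, true_and] at he
  apply he
  intro a b hab
  apply hy a b
  obtain ⟨⟨e1, h1⟩, i⟩ := e
  simp only at hab
  subst hab
  exact uni_adj x i a b ⟨h1, hx'⟩

theorem card_NPL {n d : ℕ} (R : ℕ) (v y : Fin n → Pt d) :
    (NPL R v y).card = (univ.filter fun e : Edge n => ¬ Pres v y e.1).card * R := by
  have : NPL R v y = (univ.filter fun e : Edge n => ¬ Pres v y e.1) ×ˢ (univ : Finset (Fin R)) := by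
    ext ⟨e, i⟩
    simp [NPL]
  rw [this, card_product, card_univ, Fintype.card_fin]

/-- the event of the target -/
def Ev {n d : ℕ} (v : Fin n → Pt d) (δ : ℝ) (G : SimpleGraph (Fin n)) : Prop :=
  ∃ U : Finset (Fin n), Reconstructible v G U ∧ δ * n ≤ (U.card : ℝ)

theorem Ev_mono {n d : ℕ} (v : Fin n → Pt d) (δ : ℝ) (G G' : SimpleGraph (Fin n)) (h : G ≤ G')
    (hG : Ev v δ G) : Ev v δ G' := by
  obtain ⟨U, hU, hc⟩ := hG
  exact ⟨U, fun y hy => hU y fun a b hab => hy a b (h hab), hc⟩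

/-- the main estimate at a given scale -/
theorem scale_bound {n d ρ : ℕ} (B ε ε' δ : ℝ) (hT : Traces) (hE : Extend) (hC : Core) (hN : Net)
    (hSp : Sparse) (hB : BadConc) (v : Fin n → Pt d)
    (hS : ∀ y : Fin n → Pt d,
      ((univ.filter fun e : Edge n => ¬ Pres v y e.1).card : ℝ) ≤ ε * (n : ℝ) ^ 2 →
      ∃ U : Finset (Fin n), IsoOn v y U ∧ (n : ℝ) - U.card ≤ ε' * n)
    (hnum : (((2 * (⌈16 * B * ρ⌉₊ * n) + d * n).choose (d * n) : ℕ) : ℝ) *
      (2 : ℝ) ^ (-(ε * (8 * ρ) * B * n / 2)) ≤ (1 / 2 : ℝ) ^ n)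
    (hB1 : 1 ≤ B) (hε : 0 < ε) (hε' : ε' * (48 * B) ≤ 1) (hρ : 2 ≤ ρ)
    (hρB : 128 * B ≤ (2 : ℝ) ^ ρ) (hnB : 96 * B ≤ n) (hnε : 8 ≤ B * (ε * (8 * ρ) * n))
    (hδ : δ ≤ 1 - 1 / (24 * B))
    (hPhi : (B / n) * Phi v (B / n) ≤ 1 / 192) :
    1 - (44 * B / n + (1 + 4 * (8 * ρ : ℕ) * (B / n) * n) / ((1 / (192 * B)) ^ 2 * n) +
      (4 / (B / n * (n.choose 2 * (8 * ρ : ℕ))) + 2 * (1 / 2 : ℝ) ^ n)) ≤
    bex (B / n) (fun x : LE n (8 * ρ) → Bool => if Ev v δ (uni x) then 1 else 0) := by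
  have hB0 : (0 : ℝ) < B := by linarith
  have hn0r : (0 : ℝ) < n := by linarith
  have hn0 : 0 < n := by exact_mod_cast hn0r
  have hq0 : 0 < B / n := div_pos hB0 hn0r
  have hq1 : B / n ≤ 1 := by rw [div_le_one hn0r]; linarith
  set s : ℕ := ⌊(n : ℝ) / (24 * B)⌋₊ with hs
  have hs1 : (s : ℝ) ≤ n / (24 * B) := Nat.floor_le (by positivity)
  have hs2 : (n : ℝ) / (24 * B) < s + 1 := Nat.lt_floor_add_one _
  have hbig : 4 ≤ (n : ℝ) / (24 * B) := by
    rw [le_div_iff₀ (by positivity)]; linarith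
  -- the three bad events
  let E1 : (LE n (8 * ρ) → Bool) → Prop := fun x => ∃ S : Finset (Fin n), S.Nonempty ∧
    (S.card : ℝ) ≤ n / (24 * B) ∧ 8 * ρ * S.card ≤ 8 * lcount x S
  let E2 : (LE n (8 * ρ) → Bool) → Prop := fun x =>
    2 * Phi v (B / n) + (1 / (192 * B)) * n ≤ ((BadSet v x).card : ℝ)
  let E3 : (LE n (8 * ρ) → Bool) → Prop := fun x =>
    ∃ Z ∈ Set.range (fun y : Fin n → Pt d => NPL (8 * ρ) v y),
      ε * (8 * ρ) * (n : ℝ) ^ 2 ≤ (Z.card : ℝ) ∧ ∀ e ∈ Z, x e = false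
  have hb1 : bex (B / n) (fun x : LE n (8 * ρ) → Bool => if E1 x then 1 else 0) ≤ 44 * B / n :=
    hSp n ρ B hn0 hρ hB0 (by linarith) hρB
  have hb2 : bex (B / n) (fun x : LE n (8 * ρ) → Bool => if E2 x then 1 else 0) ≤
      (1 + 4 * (8 * ρ : ℕ) * (B / n) * n) / ((1 / (192 * B)) ^ 2 * n) :=
    hB n d (8 * ρ) v (B / n) (1 / (192 * B)) hn0 (by omega) hq0.le hq1 (by positivity)
  have hcardE : Fintype.card (LE n (8 * ρ)) = n.choose 2 * (8 * ρ) := by
    rw [Fintype.card_prod, card_Edge, Fintype.card_fin]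
  have hn2 : 2 ≤ n := by
    have : (96 : ℝ) ≤ n := by nlinarith
    have : 96 ≤ n := by exact_mod_cast this
    omega
  have hch : 0 < n.choose 2 := Nat.choose_pos hn2
  have hchr : ((n.choose 2 : ℕ) : ℝ) ≤ (n : ℝ) ^ 2 / 2 := by
    rw [Nat.cast_choose_two]
    nlinarith
  have hb3 : bex (B / n) (fun x : LE n (8 * ρ) → Bool => if E3 x then 1 else 0) ≤
      4 / (B / n * (n.choose 2 * (8 * ρ : ℕ))) + 2 * (1 / 2 : ℝ) ^ n := by
    have h := hN (LE n (8 * ρ)) (Set.range (fun y : Fin n → Pt d => NPL (8 * ρ) v y)) (B / n)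
      (ε * (8 * ρ) * (n : ℝ) ^ 2) (⌈16 * B * ρ⌉₊ * n)
      ((2 * (⌈16 * B * ρ⌉₊ * n) + d * n).choose (d * n)) hq0 hq1
      (by rw [hcardE]; positivity)
      (by
        have : B / n * (ε * (8 * ρ) * (n : ℝ) ^ 2) = B * (ε * (8 * ρ) * n) := by
          field_simp
        rw [this]; exact hnε)
      (by
        rw [hcardE]
        push_cast
        have h1 : (16 * B * ρ : ℝ) ≤ ⌈16 * B * ρ⌉₊ := Nat.le_ceil _
        have h2 : 4 * (B / n) * (((n.choose 2 : ℕ) : ℝ) * (8 * ρ)) ≤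
            4 * (B / n) * ((n : ℝ) ^ 2 / 2 * (8 * ρ)) := by
          gcongr
        have h3 : 4 * (B / n) * ((n : ℝ) ^ 2 / 2 * (8 * ρ)) = 16 * B * ρ * n := by
          field_simp; ring
        calc _ ≤ _ := h2
          _ = _ := h3
          _ ≤ _ := by gcongr)
      (by
        intro X hX
        have h1 := hT n d (8 * ρ) v X
        rw [← Set.range_comp]
        have h1' : (Set.range ((fun Z => Z ∩ X) ∘ fun y : Fin n → Pt d => NPL (8 * ρ) v y)).ncard ≤
            (2 * X.card + d * n).choose (d * n) := h1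
        refine le_trans (le_of_eq ?_) (h1'.trans ?_)
        · exact congrArg (fun i : DecidableEq (LE n (8 * ρ)) =>
            (Set.range ((fun Z : Finset (LE n (8 * ρ)) =>
              @Inter.inter _ (@Finset.instInter _ i) Z X) ∘
              fun y : Fin n → Pt d => NPL (8 * ρ) v y)).ncard) (Subsingleton.elim _ _)
        · apply Nat.choose_le_choose
          omega)
    have h2 : (2 : ℝ) ^ (-(B / n * (ε * (8 * ρ) * (n : ℝ) ^ 2) / 2)) =
        (2 : ℝ) ^ (-(ε * (8 * ρ) * B * n / 2)) := by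
      congr 1
      field_simp
    rw [h2] at h
    have h3 : 2 * (((2 * (⌈16 * B * ρ⌉₊ * n) + d * n).choose (d * n) : ℕ) : ℝ) *
        (2 : ℝ) ^ (-(ε * (8 * ρ) * B * n / 2)) ≤ 2 * (1 / 2 : ℝ) ^ n := by
      rw [mul_assoc]
      linarith
    have h4 : (4 : ℝ) / (B / n * Fintype.card (LE n (8 * ρ))) =
        4 / (B / n * (n.choose 2 * (8 * ρ : ℕ))) := by
      rw [hcardE]; push_cast; rfl
    rw [h4] at h
    refine le_trans ?_ (h.trans (by linarith))
    apply le_of_eq
    exact congrArg (fun i : DecidableEq (LE n (8 * ρ)) =>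
      @bex (LE n (8 * ρ)) _ i (B / n) (fun x : LE n (8 * ρ) → Bool => if E3 x then 1 else 0))
      (Subsingleton.elim _ _)
  -- outside of the bad events
  have hgood : ∀ x : LE n (8 * ρ) → Bool, ¬ E1 x → ¬ E2 x → ¬ E3 x → Ev v δ (uni x) := by
    intro x h1 h2 h3
    have hbadc : 2 * (BadSet v x).card ≤ s := by
      have h2' : ((BadSet v x).card : ℝ) < 2 * Phi v (B / n) + (1 / (192 * B)) * n := not_le.1 h2
      have hPhi' : Phi v (B / n) ≤ n / (192 * B) := by
        rw [le_div_iff₀ (by positivity)]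
        have : Phi v (B / n) * (192 * B) = 192 * n * (B / n * Phi v (B / n)) := by
          field_simp
        rw [this]
        nlinarith
      have h5 : (2 * (BadSet v x).card : ℝ) < s := by
        have h6 : (1 / (192 * B)) * n = (n / (24 * B)) / 8 := by field_simp; norm_num
        have h7 : n / (192 * B) = (n / (24 * B)) / 8 := by field_simp; norm_num
        rw [h6] at h2'
        rw [h7] at hPhi'
        linarith
      exact_mod_cast h5.le
    have hsp : ∀ S : Finset (Fin n), S.Nonempty → S.card ≤ s →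
        8 * lcount x S < (8 * ρ) * S.card := by
      intro S hS1 hS2
      by_contra hno
      apply h1
      refine ⟨S, hS1, ?_, not_lt.1 hno⟩
      have : (S.card : ℝ) ≤ s := by exact_mod_cast hS2
      linarith
    obtain ⟨K, hKc, hK⟩ := hC n (8 * ρ) s x (BadSet v x) (by omega) hbadc hsp
    refine ⟨K, recon_of_good (s := s) hE v x K hK ?_, ?_⟩
    · intro y hy
      have h4 : ((univ.filter fun e : Edge n => ¬ Pres v y e.1).card : ℝ) ≤ ε * (n : ℝ) ^ 2 := by
        by_contra h5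
        push Not at h5
        apply h3
        refine ⟨_, ⟨y, rfl⟩, ?_, npl_avoid v y x hy⟩
        simp only [card_NPL]
        push_cast
        have : (0 : ℝ) < ρ := by exact_mod_cast (by omega : 0 < ρ)
        nlinarith
      obtain ⟨U, hU, hUc⟩ := hS y h4
      refine ⟨U, hU, ?_⟩
      have h6 : ε' * n ≤ s := by
        have h7 : ε' * n ≤ (n / (24 * B)) / 2 := by
          have : ε' ≤ 1 / (48 * B) := by rw [le_div_iff₀ (by positivity)]; exact hε'
          calc ε' * n ≤ 1 / (48 * B) * n := by gcongr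
            _ = (n / (24 * B)) / 2 := by field_simp; norm_num
        linarith
      have h8 : (n : ℝ) ≤ U.card + s := by linarith
      exact_mod_cast h8
    · have h9 : (n : ℝ) ≤ K.card + s := by exact_mod_cast hKc
      have h10 : δ * n ≤ (1 - 1 / (24 * B)) * n := by gcongr
      have h11 : (1 - 1 / (24 * B)) * n = n - n / (24 * B) := by field_simp
      linarith
  -- the union bound
  have hpt : ∀ x : LE n (8 * ρ) → Bool, (1 : ℝ) ≤ (if Ev v δ (uni x) then 1 else 0) +
      ((if E1 x then 1 else 0) + ((if E2 x then 1 else 0) + (if E3 x then 1 else 0))) := by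
    intro x
    by_cases h0 : Ev v δ (uni x)
    · rw [if_pos h0]
      have : (0 : ℝ) ≤ (if E1 x then 1 else 0) := by split_ifs <;> norm_num
      have : (0 : ℝ) ≤ (if E2 x then 1 else 0) := by split_ifs <;> norm_num
      have : (0 : ℝ) ≤ (if E3 x then 1 else 0) := by split_ifs <;> norm_num
      linarith
    · rw [if_neg h0]
      by_cases h1 : E1 x
      · rw [if_pos h1]
        have : (0 : ℝ) ≤ (if E2 x then 1 else 0) := by split_ifs <;> norm_num
        have : (0 : ℝ) ≤ (if E3 x then 1 else 0) := by split_ifs <;> norm_num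
        linarith
      · by_cases h2 : E2 x
        · rw [if_pos h2]
          have : (0 : ℝ) ≤ (if E1 x then 1 else 0) := by split_ifs <;> norm_num
          have : (0 : ℝ) ≤ (if E3 x then 1 else 0) := by split_ifs <;> norm_num
          linarith
        · by_cases h3 : E3 x
          · rw [if_pos h3]
            have : (0 : ℝ) ≤ (if E1 x then 1 else 0) := by split_ifs <;> norm_num
            have : (0 : ℝ) ≤ (if E2 x then 1 else 0) := by split_ifs <;> norm_num
            linarith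
          · exact absurd (hgood x h1 h2 h3) h0
  have htot := bex_mono (E := LE n (8 * ρ)) hq0.le hq1 hpt
  rw [bex_const, bex_add, bex_add, bex_add] at htot
  linarith

theorem fixed_scale (hT : Traces) (hE : Extend) (hS : Struct) (hC : Core) (hN : Net)
    (hSp : Sparse) (hB : BadConc) (hU : UnionLaw) (hM : MonoP) (hNum : NumNet)
    (d : ℕ) (hd : 1 ≤ d) (B δ : ℝ) (hB1 : 1 ≤ B) (hδ : δ ≤ 1 - 1 / (24 * B)) :
    ∃ C : ℝ, 0 < C ∧ ∀ η : ℝ, 0 < η → ∃ N : ℕ, ∀ n ≥ N, ∀ p : ℝ, C / n ≤ p → p ≤ 1 →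
      ∀ v : Fin n → Pt d, (B / n) * Phi v (B / n) ≤ 1 / 192 →
      1 - η ≤ gnp n p (Ev v δ) := by
  have hB0 : (0 : ℝ) < B := by linarith
  obtain ⟨ε, hε, hS'⟩ := hS d (1 / (48 * B)) (by positivity)
  obtain ⟨ρ₀, hρ₀⟩ := hNum d B ε hd hB0 hε
  obtain ⟨ρ₁, hρ₁⟩ := pow_unbounded_of_one_lt (128 * B) (one_lt_two (α := ℝ))
  set ρ : ℕ := max ρ₀ (max 2 ρ₁) with hρ
  have hρa : ρ₀ ≤ ρ := le_max_left _ _
  have hρb : 2 ≤ ρ := (le_max_left _ _).trans (le_max_right _ _)
  have hρc : ρ₁ ≤ ρ := (le_max_right _ _).trans (le_max_right _ _)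
  have hρB : 128 * B ≤ (2 : ℝ) ^ ρ :=
    hρ₁.le.trans (pow_le_pow_right₀ (by norm_num) hρc)
  have hρpos : (0 : ℝ) < ρ := by exact_mod_cast (by omega : 0 < ρ)
  refine ⟨8 * ρ * B, by positivity, fun η hη => ?_⟩
  set K : ℝ := 44 * B + (1 + 32 * ρ * B) * (192 * B) ^ 2 + 2 / (B * ρ) + 2 with hK
  have hKpos : 0 < K := by positivity
  obtain ⟨N, hNN⟩ := exists_nat_ge (max (96 * B) (max (1 / (B * ε * ρ)) (K / η)))
  refine ⟨N, fun n hn p hp hp1 v hPhi => ?_⟩
  have hnr : (N : ℝ) ≤ n := by exact_mod_cast hn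
  have hn1 : 96 * B ≤ n := (le_max_left _ _).trans (hNN.trans hnr)
  have hn2 : 1 / (B * ε * ρ) ≤ n :=
    ((le_max_left _ _).trans (le_max_right _ _)).trans (hNN.trans hnr)
  have hn3 : K / η ≤ n := ((le_max_right _ _).trans (le_max_right _ _)).trans (hNN.trans hnr)
  have hn0 : (0 : ℝ) < n := by linarith
  have h := scale_bound (n := n) (d := d) (ρ := ρ) B ε (1 / (48 * B)) δ hT hE hC hN hSp hB v
    (fun y hy => hS' n v y hy) (hρ₀ ρ hρa n) hB1 hε (by field_simp; norm_num) hρb hρB hn1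
    (by
      rw [div_le_iff₀ (by positivity)] at hn2
      nlinarith) hδ hPhi
  have hq0 : 0 < B / n := div_pos hB0 hn0
  have hq1 : B / n ≤ 1 := by rw [div_le_one hn0]; linarith
  rw [hU n (8 * ρ) (B / n) (Ev v δ)] at h
  have hmono := hM n (1 - (1 - B / n) ^ (8 * ρ)) p (Ev v δ)
    (by
      have : (1 - B / n) ^ (8 * ρ) ≤ 1 := pow_le_one₀ (by linarith) (by linarith)
      linarith)
    (by
      have h1 := one_add_mul_le_pow (a := -(B / n)) (by linarith) (8 * ρ)
      have h2 : (1 + -(B / n)) = 1 - B / n := by ring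
      rw [h2] at h1
      push_cast at h1
      have h3 : 8 * (ρ : ℝ) * B / n = 8 * ρ * (B / n) := by ring
      rw [h3] at hp
      linarith) hp1 (fun G G' hGG' => Ev_mono v δ G G' hGG')
  have herr : 44 * B / n + (1 + 4 * (8 * ρ : ℕ) * (B / n) * n) / ((1 / (192 * B)) ^ 2 * n) +
      (4 / (B / n * (n.choose 2 * (8 * ρ : ℕ))) + 2 * (1 / 2 : ℝ) ^ n) ≤ η := by
    have e1 : (1 + 4 * (8 * ρ : ℕ) * (B / n) * n) / ((1 / (192 * B)) ^ 2 * n) =
        (1 + 32 * ρ * B) * (192 * B) ^ 2 / n := by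
      push_cast
      field_simp
      ring
    have hn2' : (2 : ℝ) ≤ n := by linarith
    have e2 : (4 : ℝ) / (B / n * (n.choose 2 * (8 * ρ : ℕ))) ≤ 2 / (B * ρ) / n := by
      have hc : (n : ℝ) ^ 2 / 4 ≤ (n.choose 2 : ℕ) := by
        rw [Nat.cast_choose_two]
        nlinarith
      have e3 : 2 / (B * ρ) / n = 4 / (B / n * ((n : ℝ) ^ 2 / 4 * (8 * ρ))) := by
        field_simp
        norm_num
      rw [e3]
      push_cast
      gcongr
    have e4 : (1 / 2 : ℝ) ^ n ≤ 1 / n := by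
      rw [one_div, inv_pow, one_div]
      apply inv_anti₀ hn0
      exact_mod_cast (Nat.lt_two_pow_self (n := n)).le
    rw [e1]
    have e5 : 44 * B / n + (1 + 32 * ρ * B) * (192 * B) ^ 2 / n + (2 / (B * ρ) / n + 2 * (1 / n)) =
        K / n := by
      rw [hK]; ring
    have e6 : K / n ≤ η := by
      rw [div_le_iff₀ hn0]
      rw [div_le_iff₀ hη] at hn3
      linarith
    linarith
  linarith

/-- **The assembly.** -/
theorem assemble (hT : Traces) (hE : Extend) (hS : Struct) (hC : Core) (hN : Net)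
    (hSp : Sparse) (hB : BadConc) (hSc : Scale) (hL : Lower) (hU : UnionLaw) (hM : MonoP)
    (hNum : NumNet) : Target := by
  intro d hd
  refine ⟨hL d hd, fun δ hδ => ?_⟩
  set B₀ : ℝ := max 1 (1 / (24 * (1 - δ))) with hB₀
  have hδ' : 0 < 1 - δ := by linarith
  have hB₀1 : 1 ≤ B₀ := le_max_left _ _
  have hB₀2 : 1 / (24 * (1 - δ)) ≤ B₀ := le_max_right _ _
  obtain ⟨J, hJ⟩ : ∃ J : ℕ, J = 384 * (d + 1) := ⟨_, rfl⟩
  have hBj : ∀ j : ℕ, B₀ ≤ 2 ^ j * B₀ := by
    intro j
    have : (1 : ℝ) ≤ 2 ^ j := one_le_pow₀ (by norm_num)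
    nlinarith
  have hfs : ∀ j : ℕ, ∃ C : ℝ, 0 < C ∧ ∀ η : ℝ, 0 < η → ∃ N : ℕ, ∀ n ≥ N, ∀ p : ℝ, C / n ≤ p →
      p ≤ 1 → ∀ v : Fin n → Pt d, ((2 ^ j * B₀) / n) * Phi v ((2 ^ j * B₀) / n) ≤ 1 / 192 →
      1 - η ≤ gnp n p (Ev v δ) := by
    intro j
    refine fixed_scale hT hE hS hC hN hSp hB hU hM hNum d hd (2 ^ j * B₀) δ
      (hB₀1.trans (hBj j)) ?_
    have h1 : B₀ ≤ 2 ^ j * B₀ := hBj j
    have h2 : 1 / (24 * (2 ^ j * B₀)) ≤ 1 / (24 * B₀) := by gcongr
    have h3 : 1 / (24 * B₀) ≤ 1 - δ := by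
      rw [div_le_iff₀ (by positivity)] at hB₀2 ⊢
      nlinarith
    linarith
  choose C hC0 hCN using hfs
  set Cm : ℝ := ∑ j ∈ range (J + 1), C j with hCm
  have hCle : ∀ j ≤ J, C j ≤ Cm := by
    intro j hj
    exact Finset.single_le_sum (f := C) (fun i _ => (hC0 i).le) (mem_range.2 (by omega))
  refine ⟨Cm, lt_of_lt_of_le (hC0 0) (hCle 0 (by omega)), fun η hη => ?_⟩
  choose N hNN using fun j => hCN j η hη
  obtain ⟨N', hN'⟩ := exists_nat_ge (2 ^ J * B₀)
  refine ⟨N' + ∑ j ∈ range (J + 1), N j, fun n hn p hp hp1 v => ?_⟩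
  have hnN' : (N' : ℝ) ≤ n := by exact_mod_cast (Nat.le_add_right _ _).trans hn
  have hB₀0 : 0 < B₀ := by linarith
  have hn0 : (0 : ℝ) < n := lt_of_lt_of_le (by positivity) (hN'.trans hnN')
  obtain ⟨j, hj1, hjJ, hj⟩ := hSc n d J v (B₀ / n) (by positivity)
    (by rw [← mul_div_assoc, div_le_one hn0]; linarith) (by omega)
  have hjN : N j ≤ n := by
    have : N j ≤ ∑ j ∈ range (J + 1), N j :=
      Finset.single_le_sum (f := N) (fun i _ => Nat.zero_le _) (mem_range.2 (by omega))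
    omega
  have hjp : C j / n ≤ p := le_trans (by gcongr; exact hCle j hjJ) hp
  have h192 : (2 * ((d : ℝ) + 1)) / (J : ℕ) = 1 / 192 := by
    rw [hJ]; push_cast
    have : (d : ℝ) + 1 ≠ 0 := by positivity
    field_simp
    norm_num
  rw [h192] at hj
  have hq : (2 : ℝ) ^ j * (B₀ / n) = (2 ^ j * B₀) / n := by ring
  rw [hq] at hj
  exact hNN j n hjN p hjp hp1 v hj

end N943.RC
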