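import Mathlib
import Pool.Agent.N943.RC.Stm

set_option autoImplicit false

namespace N943.RC

open Finset
open scoped Classical

theorem dist_comb_eq {n d : ℕ} (v x : Fin n → Pt d) (w₁ w₂ : Fin n → ℝ)
    (h₁ : ∑ i, w₁ i = 1) (h₂ : ∑ i, w₂ i = 1)
    (h : ∀ i j, (w₁ - w₂) i ≠ 0 → (w₁ - w₂) j ≠ 0 → dist (x i) (x j) = dist (v i) (v j)) :
    dist (univ.affineCombination ℝ x w₁) (univ.affineCombination ℝ x w₂) =
      dist (univ.affineCombination ℝ v w₁) (univ.affineCombination ℝ v w₂) := by
  have e1 := EuclideanGeometry.dist_affineCombination x h₁ h₂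
  have e2 := EuclideanGeometry.dist_affineCombination v h₁ h₂
  simp only at e1 e2
  have e3 : ∑ i₁ : Fin n, ∑ i₂ : Fin n,
        (w₁ - w₂) i₁ * (w₁ - w₂) i₂ * (dist (x i₁) (x i₂) * dist (x i₁) (x i₂)) =
      ∑ i₁ : Fin n, ∑ i₂ : Fin n,
        (w₁ - w₂) i₁ * (w₁ - w₂) i₂ * (dist (v i₁) (v i₂) * dist (v i₁) (v i₂)) := by
    refine sum_congr rfl fun i _ => sum_congr rfl fun j _ => ?_
    by_cases hi : (w₁ - w₂) i = 0
    · rw [hi]; ring
    · by_cases hj : (w₁ - w₂) j = 0
      · rw [hj]; ring
      · rw [h i j hi hj]
  rw [e3, ← e2] at e1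
  exact (mul_self_inj_of_nonneg dist_nonneg dist_nonneg).1 e1

theorem comb_single {n d : ℕ} (v : Fin n → Pt d) (a : Fin n) :
    univ.affineCombination ℝ v (Pi.single a 1) = v a :=
  univ.affineCombination_of_eq_one_of_eq_zero _ v (mem_univ a) (by simp)
    (fun j _ hj => by simp [hj])

theorem extend : Extend := by
  intro n d v x U a N hU hN ha
  obtain ⟨fs, w, hfs, hw, hva⟩ := eq_affineCombination_of_mem_affineSpan_image ha
  -- extend the weights by zero
  let w' : Fin n → ℝ := (fs : Set (Fin n)).indicator w
  have hw' : ∑ i, w' i = 1 := by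
    rw [← hw]
    simp only [w', Set.indicator_apply, Finset.mem_coe]
    rw [Finset.sum_ite_mem, Finset.univ_inter]
  have hva' : v a = univ.affineCombination ℝ v w' := by
    rw [hva]
    exact Finset.affineCombination_indicator_subset w v fs.subset_univ
  have hsupp : ∀ i, w' i ≠ 0 → i ∈ U ∧ dist (x a) (x i) = dist (v a) (v i) := by
    intro i hi
    apply hN
    apply hfs
    by_contra hno
    exact hi (Set.indicator_of_notMem hno w)
  have hsing : ∀ b : Fin n, ∑ i, (Pi.single b 1 : Fin n → ℝ) i = 1 := by
    intro b
    simp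
  -- `x a` is the same combination
  have hxa : x a = univ.affineCombination ℝ x w' := by
    have := dist_comb_eq v x (Pi.single a 1) w' (hsing a) hw' (by
      intro i j hi hj
      have key : ∀ k, (Pi.single a 1 - w' : Fin n → ℝ) k ≠ 0 → k = a ∨ w' k ≠ 0 := by
        intro k hk
        by_cases hka : k = a
        · exact Or.inl hka
        · right
          intro h0
          apply hk
          simp [hka, h0]
      rcases key i hi with rfl | hi'
      · rcases key j hj with rfl | hj'
        · simp
        · exact (hsupp j hj').2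
      · rcases key j hj with rfl | hj'
        · rw [dist_comm (x i), dist_comm (v i)]
          exact (hsupp i hi').2
        · exact hU i (hsupp i hi').1 j (hsupp j hj').1)
    rw [comb_single, comb_single, ← hva', dist_self] at this
    exact dist_eq_zero.1 this
  have hab : ∀ b ∈ U, dist (x a) (x b) = dist (v a) (v b) := by
    intro b hb
    have := dist_comb_eq v x w' (Pi.single b 1) hw' (hsing b) (by
      intro i j hi hj
      have key : ∀ k, (w' - Pi.single b 1 : Fin n → ℝ) k ≠ 0 → k ∈ U := by
        intro k hk
        by_cases hkb : k = b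
        · rw [hkb]; exact hb
        · apply (hsupp k _).1
          intro h0
          apply hk
          simp [hkb, h0]
      exact hU i (key i hi) j (key j hj))
    rw [comb_single, comb_single, ← hva', ← hxa] at this
    exact this
  intro b hb c hc
  rw [mem_insert] at hb hc
  rcases hb with rfl | hb
  · rcases hc with rfl | hc
    · simp
    · exact hab c hc
  · rcases hc with rfl | hc
    · rw [dist_comm (x b), dist_comm (v b)]
      exact hab b hb
    · exact hU b hb c hc

end N943.RC
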