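import Mathlib
import Pool.Agent.N943.RC.Stm

set_option autoImplicit false

namespace N943.RC

open Finset Filter Topology

theorem choose_le_exp (N k : ℕ) (hk : 0 < k) :
    ((N.choose k : ℕ) : ℝ) ≤ (N * Real.exp 1 / k) ^ k := by
  have hk' : (0 : ℝ) < k := by exact_mod_cast hk
  have h1 : ((N.choose k : ℕ) : ℝ) ≤ (N : ℝ) ^ k / k.factorial := Nat.choose_le_pow_div k N
  have h2 : (k : ℝ) ^ k / k.factorial ≤ Real.exp k :=
    Real.pow_div_factorial_le_exp (k : ℝ) hk'.le k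
  have hf : (0 : ℝ) < k.factorial := by exact_mod_cast Nat.factorial_pos k
  have h3 : (1 : ℝ) / k.factorial ≤ Real.exp k / (k : ℝ) ^ k := by
    rw [div_le_div_iff₀ hf (by positivity)]
    rw [div_le_iff₀ hf] at h2
    linarith
  calc ((N.choose k : ℕ) : ℝ) ≤ (N : ℝ) ^ k / k.factorial := h1
    _ = (N : ℝ) ^ k * (1 / k.factorial) := by ring
    _ ≤ (N : ℝ) ^ k * (Real.exp k / (k : ℝ) ^ k) := by gcongr
    _ = (N * Real.exp 1 / k) ^ k := by
      rw [div_pow, mul_pow, ← Real.exp_nat_mul, mul_one]; ring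

theorem numNet : NumNet := by
  intro d B ε hd hB hε
  have hd' : (0 : ℝ) < d := by exact_mod_cast hd
  -- the base
  let g : ℕ → ℝ := fun ρ => ((2 * (16 * B * ρ + 1) + d) * Real.exp 1 / d) ^ d *
    ((2 : ℝ) ^ (-(4 * ε * B))) ^ ρ
  have hr0 : 0 ≤ (2 : ℝ) ^ (-(4 * ε * B)) := by positivity
  have hr1 : (2 : ℝ) ^ (-(4 * ε * B)) < 1 :=
    Real.rpow_lt_one_of_one_lt_of_neg (by norm_num) (by nlinarith [mul_pos hε hB])
  have hg : Tendsto g atTop (𝓝 0) := by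
    -- bound the base by `A * ρ ^ d`
    set A : ℝ := ((32 * B + 2 + d) * Real.exp 1 / d) ^ d with hA
    have h1 : Tendsto (fun ρ : ℕ => A * ((ρ : ℝ) ^ d * ((2 : ℝ) ^ (-(4 * ε * B))) ^ ρ)) atTop
        (𝓝 0) := by
      have := (tendsto_pow_const_mul_const_pow_of_lt_one d hr0 hr1).const_mul A
      simpa using this
    refine squeeze_zero' (Eventually.of_forall fun ρ => by positivity) ?_ h1
    filter_upwards [eventually_ge_atTop 1] with ρ hρ
    have hρ' : (1 : ℝ) ≤ ρ := by exact_mod_cast hρ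
    have h2 : ((2 * (16 * B * ρ + 1) + d) * Real.exp 1 / d) ^ d ≤ A * (ρ : ℝ) ^ d := by
      rw [hA, ← mul_pow]
      apply pow_le_pow_left₀ (by positivity)
      have h3 : (2 * (16 * B * ρ + 1) + d : ℝ) ≤ (32 * B + 2 + d) * ρ := by
        nlinarith [mul_nonneg (sub_nonneg.2 hρ') hd'.le]
      calc (2 * (16 * B * ρ + 1) + d) * Real.exp 1 / d
          ≤ ((32 * B + 2 + d) * ρ) * Real.exp 1 / d := by gcongr
        _ = (32 * B + 2 + d) * Real.exp 1 / d * ρ := by ring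
    calc g ρ ≤ (A * (ρ : ℝ) ^ d) * ((2 : ℝ) ^ (-(4 * ε * B))) ^ ρ := by
          simp only [g]
          gcongr
      _ = _ := by ring
  have hev := hg.eventually (gt_mem_nhds (show (0 : ℝ) < 1 / 2 by norm_num))
  obtain ⟨ρ₀, hρ₀⟩ := eventually_atTop.1 hev
  refine ⟨ρ₀, fun ρ hρ n => ?_⟩
  rcases Nat.eq_zero_or_pos n with rfl | hn
  · simp
  have hn' : (0 : ℝ) < n := by exact_mod_cast hn
  set M : ℕ := ⌈16 * B * ρ⌉₊ with hM
  have hM1 : (M : ℝ) ≤ 16 * B * ρ + 1 := (Nat.ceil_lt_add_one (by positivity)).le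
  have h1 := choose_le_exp (2 * (M * n) + d * n) (d * n) (Nat.mul_pos (by omega) hn)
  have h2 : (((2 * (M * n) + d * n : ℕ) : ℝ) * Real.exp 1 / ((d * n : ℕ) : ℝ)) =
      (2 * M + d) * Real.exp 1 / d := by
    push_cast
    field_simp
  rw [h2, pow_mul] at h1
  have h3 : (2 : ℝ) ^ (-(ε * (8 * ρ) * B * n / 2)) = (((2 : ℝ) ^ (-(4 * ε * B))) ^ ρ) ^ n := by
    rw [← pow_mul, ← Real.rpow_natCast ((2 : ℝ) ^ (-(4 * ε * B))) (ρ * n),
      ← Real.rpow_mul (by norm_num)]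
    congr 1
    push_cast
    ring
  rw [h3]
  calc (((2 * (M * n) + d * n).choose (d * n) : ℕ) : ℝ) * (((2 : ℝ) ^ (-(4 * ε * B))) ^ ρ) ^ n
      ≤ (((2 * M + d) * Real.exp 1 / d) ^ d) ^ n * (((2 : ℝ) ^ (-(4 * ε * B))) ^ ρ) ^ n := by
        gcongr
    _ = (((2 * M + d) * Real.exp 1 / d) ^ d * ((2 : ℝ) ^ (-(4 * ε * B))) ^ ρ) ^ n := by
        rw [mul_pow]
    _ ≤ (g ρ) ^ n := by
        apply pow_le_pow_left₀ (by positivity)
        simp only [g]
        gcongr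
    _ ≤ (1 / 2) ^ n := by
        apply pow_le_pow_left₀ (by positivity)
        exact (hρ₀ ρ hρ).le

end N943.RC
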