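import Mathlib
import Pool.Agent.N943.RC.Stm

set_option autoImplicit false

namespace N943.RC

open Finset Pool.Agent.R980
open scoped Classical

/-- pushforward of the product Bernoulli law by a coordinatewise map of a larger cube -/
theorem bex_push {E L : Type} [Fintype E] [DecidableEq E] [Fintype L] [DecidableEq L]
    (q p : ℝ) (g : L → Bool) (w : L → ℝ)
    (hw1 : ∑ l, (if g l = true then w l else 0) = p)
    (hw0 : ∑ l, (if g l = true then 0 else w l) = 1 - p)
    (F : (E → Bool) → ℝ) :
    ∑ x : E → L, (∏ e, w (x e)) * F (fun e => g (x e)) = bex p F := by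
  unfold bex
  -- group by the image
  have h1 : ∀ x : E → L, (∏ e, w (x e)) * F (fun e => g (x e)) =
      ∑ y : E → Bool, (∏ e, (if g (x e) = y e then w (x e) else 0)) * F y := by
    intro x
    rw [Finset.sum_eq_single (fun e => g (x e))]
    · simp
    · intro y _ hy
      have : ∃ e, g (x e) ≠ y e := by
        by_contra hno
        push Not at hno
        exact hy (funext fun e => (hno e).symm)
      obtain ⟨e, he⟩ := this
      rw [Finset.prod_eq_zero (mem_univ e) (by rw [if_neg he]), zero_mul]
    · intro h
      exact absurd (mem_univ _) h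
  rw [sum_congr rfl fun x _ => h1 x, sum_comm]
  refine sum_congr rfl fun y _ => ?_
  rw [← sum_mul]
  congr 1
  have h2 := Finset.prod_univ_sum (fun _ : E => (univ : Finset L))
    (fun e l => if g l = y e then w l else 0)
  rw [Fintype.piFinset_univ] at h2
  rw [← h2]
  unfold bw
  refine prod_congr rfl fun e _ => ?_
  by_cases hy : y e = true
  · rw [if_pos hy, ← hw1]
    refine sum_congr rfl fun l _ => ?_
    rw [hy]
  · rw [if_neg hy, ← hw0]
    refine sum_congr rfl fun l _ => ?_
    rw [Bool.not_eq_true] at hy
    rw [hy]
    by_cases hg : g l = true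
    · simp [hg]
    · rw [Bool.not_eq_true] at hg
      simp [hg]

/-- the bits `∃ i, x (e,i)` are independent Bernoulli(`1-(1-q)^R`) -/
theorem bex_union {E : Type} [Fintype E] [DecidableEq E] (R : ℕ) (q : ℝ) (F : (E → Bool) → ℝ) :
    bex q (fun x : E × Fin R → Bool => F (fun e => decide (∃ i, x (e, i) = true))) =
      bex (1 - (1 - q) ^ R) F := by
  have hprod := bex_push (E := E) (L := Fin R → Bool) q (1 - (1 - q) ^ R)
    (fun l => decide (∃ i, l i = true)) (fun l => bw q l) ?_ ?_ F
  · rw [← hprod]
    unfold bex
    rw [← (Equiv.curry E (Fin R) Bool).symm.sum_comp]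
    refine sum_congr rfl fun x _ => ?_
    congr 1
    unfold bw
    rw [Fintype.prod_prod_type]
    rfl
  · have h0 : ∑ l : Fin R → Bool, (if decide (∃ i, l i = true) = true then 0 else bw q l) =
        (1 - q) ^ R := by
      rw [Finset.sum_eq_single (fun _ => false)]
      · simp [bw]
      · intro l _ hl
        have : ∃ i, l i = true := by
          by_contra hno
          push Not at hno
          exact hl (funext fun i => by simpa using hno i)
        simp [this]
      · intro h
        exact absurd (mem_univ _) h
    have h1 : ∑ l : Fin R → Bool, (if decide (∃ i, l i = true) = true then bw q l else 0) +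
        ∑ l : Fin R → Bool, (if decide (∃ i, l i = true) = true then 0 else bw q l) = 1 := by
      rw [← sum_add_distrib, ← bw_sum (E := Fin R) q]
      refine sum_congr rfl fun l _ => ?_
      split_ifs <;> simp
    rw [h0] at h1
    linarith
  · rw [Finset.sum_eq_single (fun _ => false)]
    · simp [bw]
    · intro l _ hl
      have : ∃ i, l i = true := by
        by_contra hno
        push Not at hno
        exact hl (funext fun i => by simpa using hno i)
      simp [this]
    · intro h
      exact absurd (mem_univ _) h

theorem unionLaw : UnionLaw := by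
  intro n R q A
  rw [gnp_eq_bex, ← bex_union R q (fun y : Edge n → Bool => if A (ofBool y) then 1 else 0)]
  rfl

/-- monotonicity of expectations of increasing functions -/
theorem bex_mono_param {E : Type} [Fintype E] [DecidableEq E] {p p' : ℝ} (h0 : 0 ≤ p)
    (hp : p ≤ p') (h1 : p' ≤ 1) (F : (E → Bool) → ℝ)
    (hF : ∀ x y : E → Bool, (∀ e, x e = true → y e = true) → F x ≤ F y) :
    bex p F ≤ bex p' F := by
  -- coupling on `{0,1,2}`: value 0 w.p. 1-p', 1 w.p. p'-p, 2 w.p. p
  let w : Fin 3 → ℝ := ![1 - p', p' - p, p]
  have e1 := bex_push (E := E) p p (fun l : Fin 3 => decide (l = 2)) w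
    (by simp [Fin.sum_univ_three, w]) (by simp [Fin.sum_univ_three, w]) F
  have e2 := bex_push (E := E) p p' (fun l : Fin 3 => decide (l ≠ 0)) w
    (by simp [Fin.sum_univ_three, w]) (by simp [Fin.sum_univ_three, w]) F
  rw [← e1, ← e2]
  refine sum_le_sum fun x _ => ?_
  have hw : ∀ l, 0 ≤ w l := by
    intro l
    fin_cases l
    · simp [w]; linarith
    · simp [w]; linarith
    · simp [w]; linarith
  refine mul_le_mul_of_nonneg_left ?_ (prod_nonneg fun e _ => hw _)
  apply hF
  intro e he
  simp only [decide_eq_true_eq] at he ⊢
  rw [he]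
  decide

theorem monoP : MonoP := by
  intro n p p' A h0 hp h1 hA
  rw [gnp_eq_bex, gnp_eq_bex]
  apply bex_mono_param h0 hp h1
  intro x y hxy
  by_cases hx : A (ofBool x)
  · have : A (ofBool y) := by
      refine hA _ _ ?_ hx
      intro u v huv
      obtain ⟨h, hh⟩ := huv
      exact ⟨h, hxy _ hh⟩
    rw [if_pos hx, if_pos this]
  · rw [if_neg hx]
    split_ifs <;> norm_num

end N943.RC
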