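import Mathlib
import Pool.Agent.N943.RC.Asm
import Pool.Agent.N943.RC.Ext
import Pool.Agent.N943.RC.Num
import Pool.Agent.N943.RC.Union
import Pool.Agent.N814.RC.Sparse
import Pool.Agent.N499.RCNet
import Pool.Agent.N50.RC.D4
import Pool.Agent.N507.RC.ZeroPat
import Pool.Agent.N507.RC.Traces
import Pool.Agent.N814.RC.Struct
import Pool.Agent.N692.RC.P3
import Pool.Agent.N322.RC.Scale
import Pool.Agent.N8.RC.Lower

set_option autoImplicit false

namespace N943.RC

theorem target : Target :=
  assemble (Pool.Agent.N507.RC.traces Pool.Agent.N507.RC.zeroPat) extend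
    (Pool.Agent.N814.RC.struct extend) N50.RC.core Pool.Agent.N499.RCNet.net
    Pool.Agent.N814.RC.sparse N692.RC.badConc Pool.Agent.N322.RC.scale Pool.Agent.N8.RC.lower
    unionLaw monoP numNet

end N943.RC
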